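import Pool.Agent.Helper61.QS.GoalsC

/-!
# Project QS, packet CLA: invariant planes
-/

set_option autoImplicit false

open Pool.Agent.Helper61.QS

namespace Pool.Agent.Helper77.QS

variable {k : ℕ}

/-- invariant subspaces -/
def Inv (S : Set (En k)) (W : Submodule ℝ (V k)) : Prop :=
  ∀ x ∈ S, ∀ v ∈ W, x v ∈ W ∧ (star x) v ∈ W

lemma inner_star (x : En k) (v w : V k) : inner ℝ v (x w) = inner ℝ ((star x) v) w := by
  rw [ContinuousLinearMap.star_eq_adjoint, ContinuousLinearMap.adjoint_inner_left]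

lemma scalar_of_min (S : Set (En k)) (U : Submodule ℝ (V k)) (hU : Inv S U) (hne : U ≠ ⊥)
    (hmin : ∀ U' ≤ U, Inv S U' → U' ≠ ⊥ → U' = U) (T : En k) (hT : star T = T)
    (hc : ∀ x ∈ S, T * x = x * T ∧ T * star x = star x * T) (hTU : ∀ v ∈ U, T v ∈ U) :
    ∃ c : ℝ, ∀ v ∈ U, T v = c • v := by
  have hnt : Nontrivial U := Submodule.nontrivial_iff_ne_bot.mpr hne
  set T' : U →ₗ[ℝ] U := (T : V k →ₗ[ℝ] V k).restrict hTU with hT'
  have hsym : T'.IsSymmetric := by
    intro v w
    change inner ℝ (T v : V k) (w : V k) = inner ℝ (v : V k) (T w : V k)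
    rw [inner_star, hT]
  obtain ⟨v, hv⟩ := hsym.hasEigenvalue_iSup_of_finiteDimensional.exists_hasEigenvector
  set c : ℝ := ⨆ x : { x : U // x ≠ 0 }, RCLike.re (inner ℝ (T' x) (x : U)) / ‖(x : U)‖ ^ 2
  have hv1 : T (v : V k) = c • (v : V k) := congrArg Subtype.val hv.apply_eq_smul
  have hv2 : (v : V k) ≠ 0 := fun h => hv.2 (Subtype.ext h)
  refine ⟨c, ?_⟩
  set U' : Submodule ℝ (V k) := U ⊓ LinearMap.ker ((T : V k →ₗ[ℝ] V k) - c • LinearMap.id) with hU'
  have hmem : ∀ w, w ∈ U' ↔ w ∈ U ∧ T w = c • w := by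
    intro w
    rw [hU', Submodule.mem_inf, LinearMap.mem_ker]
    refine and_congr_right fun _ => ?_
    change T w - c • w = 0 ↔ _
    exact sub_eq_zero
  have h1 : Inv S U' := by
    intro x hx w hw
    rw [hmem] at hw
    have h2 := hU x hx w hw.1
    rw [hmem, hmem]
    refine ⟨⟨h2.1, ?_⟩, ⟨h2.2, ?_⟩⟩
    · change (T * x) w = c • x w
      rw [(hc x hx).1]
      change x (T w) = c • x w
      rw [hw.2, map_smul]
    · change (T * star x) w = c • (star x) w
      rw [(hc x hx).2]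
      change (star x) (T w) = c • (star x) w
      rw [hw.2, map_smul]
  have h2 : U' ≠ ⊥ := by
    intro h
    have : (v : V k) ∈ U' := (hmem _).mpr ⟨v.2, hv1⟩
    rw [h, Submodule.mem_bot] at this
    exact hv2 this
  have h3 := hmin U' inf_le_left h1 h2
  intro w hw
  rw [← h3, hmem] at hw
  exact hw.2

lemma small_inv (S : Set (En k)) (hS : ∀ x ∈ S, ∀ y ∈ S, x * y = y * x ∧ x * star y = star y * x)
    (U : Submodule ℝ (V k)) (hU : Inv S U) (hne : U ≠ ⊥) :
    ∃ P ≤ U, Inv S P ∧ P ≠ ⊥ ∧ Module.finrank ℝ P ≤ 2 := by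
  obtain ⟨U₁, ⟨h1, h2, h3⟩, hmin⟩ := (wellFounded_lt (α := Submodule ℝ (V k))).has_min
    {U' | U' ≤ U ∧ Inv S U' ∧ U' ≠ ⊥} ⟨U, le_rfl, hU, hne⟩
  have hmin' : ∀ U' ≤ U₁, Inv S U' → U' ≠ ⊥ → U' = U₁ := by
    intro U' hle hinv hne'
    by_contra hcon
    exact hmin U' ⟨hle.trans h1, hinv, hne'⟩ (lt_of_le_of_ne hle hcon)
  have hss : ∀ x ∈ S, ∀ y ∈ S, star x * star y = star y * star x := by
    intro x hx y hy
    rw [← star_mul, ← star_mul, (hS x hx y hy).1]
  -- the sums are scalars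
  have ha : ∀ x ∈ S, ∃ a : ℝ, ∀ v ∈ U₁, x v + (star x) v = a • v := by
    intro x hx
    obtain ⟨a, ha⟩ := scalar_of_min S U₁ h2 h3 hmin' (x + star x)
      (by rw [star_add, star_star, add_comm])
      (fun z hz => by
        refine ⟨?_, ?_⟩
        · rw [add_mul, mul_add, (hS x hx z hz).1, (hS z hz x hx).2]
        · rw [add_mul, mul_add, (hS x hx z hz).2, hss x hx z hz])
      (fun v hv => U₁.add_mem (h2 x hx v hv).1 (h2 x hx v hv).2)
    exact ⟨a, fun v hv => ha v hv⟩
  have hyU : ∀ x ∈ S, ∀ v ∈ U₁, (x - star x) v ∈ U₁ := fun x hx v hv =>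
    U₁.sub_mem (h2 x hx v hv).1 (h2 x hx v hv).2
  have hsy : ∀ x : En k, star (x - star x) = -(x - star x) := by
    intro x
    rw [star_sub, star_star, neg_sub]
  have hyz : ∀ x ∈ S, ∀ z ∈ S, (x - star x) * z = z * (x - star x) ∧
      (x - star x) * star z = star z * (x - star x) := by
    intro x hx z hz
    constructor
    · rw [sub_mul, mul_sub, (hS x hx z hz).1, (hS z hz x hx).2]
    · rw [sub_mul, mul_sub, (hS x hx z hz).2, hss x hx z hz]
  have hyy : ∀ x ∈ S, ∀ z ∈ S, ∃ c : ℝ, ∀ v ∈ U₁, (x - star x) ((z - star z) v) = c • v := by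
    intro x hx z hz
    have hcomm : (x - star x) * (z - star z) = (z - star z) * (x - star x) := by
      rw [mul_sub, (hyz x hx z hz).1, (hyz x hx z hz).2, ← sub_mul]
    obtain ⟨a, ha⟩ := scalar_of_min S U₁ h2 h3 hmin' ((x - star x) * (z - star z))
      (by rw [star_mul, hsy, hsy, neg_mul_neg, hcomm])
      (fun w hw => by
        refine ⟨?_, ?_⟩
        · rw [mul_assoc, (hyz z hz w hw).1, ← mul_assoc, (hyz x hx w hw).1, mul_assoc]
        · rw [mul_assoc, (hyz z hz w hw).2, ← mul_assoc, (hyz x hx w hw).2, mul_assoc])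
      (fun v hv => hyU x hx _ (hyU z hz v hv))
    exact ⟨a, fun v hv => ha v hv⟩
  have hx1 : ∀ (x : En k) (v : V k), x v =
      (1 / 2 : ℝ) • ((x v + (star x) v) + (x - star x) v) := by
    intro x v
    have : (x - star x) v = x v - (star x) v := rfl
    rw [this]
    module
  have hx2 : ∀ (x : En k) (v : V k), (star x) v =
      (1 / 2 : ℝ) • ((x v + (star x) v) - (x - star x) v) := by
    intro x v
    have : (x - star x) v = x v - (star x) v := rfl
    rw [this]
    module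
  by_cases hall : ∀ x ∈ S, ∀ v ∈ U₁, (x - star x) v = 0
  · obtain ⟨v, hv, hv0⟩ := U₁.ne_bot_iff.mp h3
    refine ⟨Submodule.span ℝ {v}, ?_, ?_, ?_, ?_⟩
    · rw [Submodule.span_singleton_le_iff_mem]
      exact h1 hv
    · intro x hx w hw
      obtain ⟨b, rfl⟩ := Submodule.mem_span_singleton.mp hw
      obtain ⟨a, ha⟩ := ha x hx
      have hbv : b • v ∈ U₁ := U₁.smul_mem b hv
      have e1 : x (b • v) = (1 / 2 : ℝ) • a • b • v := by
        rw [hx1 x (b • v), ha _ hbv, hall x hx _ hbv, add_zero]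
      have e2 : (star x) (b • v) = (1 / 2 : ℝ) • a • b • v := by
        rw [hx2 x (b • v), ha _ hbv, hall x hx _ hbv, sub_zero]
      rw [e1, e2]
      have : (1 / 2 : ℝ) • a • b • v ∈ Submodule.span ℝ {v} :=
        Submodule.smul_mem _ _ (Submodule.smul_mem _ _ hw)
      exact ⟨this, this⟩
    · rw [Ne, Submodule.span_singleton_eq_bot]
      exact hv0
    · rw [finrank_span_singleton hv0]
      norm_num
  · push Not at hall
    obtain ⟨x0, hx0, v, hv, hyv⟩ := hall
    have hv0 : v ≠ 0 := fun h => hyv (by rw [h, map_zero])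
    obtain ⟨μ, hμ⟩ := hyy x0 hx0 x0 hx0
    have hμ0 : μ ≠ 0 := by
      intro h
      have h4 := hμ v hv
      rw [h, zero_smul] at h4
      have h5 : inner ℝ ((x0 - star x0) v) ((x0 - star x0) v) = (0 : ℝ) := by
        rw [inner_star, hsy]
        change inner ℝ (-((x0 - star x0) ((x0 - star x0) v))) v = (0 : ℝ)
        rw [h4, neg_zero, inner_zero_left]
      exact hyv (inner_self_eq_zero.mp h5)
    set u : V k := (x0 - star x0) v with hu
    have huU : u ∈ U₁ := hyU x0 hx0 v hv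
    -- every y_x is a multiple of y on U₁
    have hmul : ∀ x ∈ S, ∃ c : ℝ, ∀ w ∈ U₁, (x - star x) w = c • (x0 - star x0) w := by
      intro x hx
      obtain ⟨c, hc⟩ := hyy x0 hx0 x hx
      refine ⟨μ⁻¹ * c, fun w hw => ?_⟩
      have h4 := hμ _ (hyU x hx w hw)
      rw [hc w hw, map_smul] at h4
      rw [mul_smul, h4, smul_smul, inv_mul_cancel₀ hμ0, one_smul]
    refine ⟨Submodule.span ℝ {v, u}, ?_, ?_, ?_, ?_⟩
    · rw [Submodule.span_le]
      intro w hw
      rcases hw with rfl | hw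
      · exact h1 hv
      · rw [Set.mem_singleton_iff.mp hw]
        exact h1 huU
    · intro x hx w hw
      obtain ⟨a, ha⟩ := ha x hx
      obtain ⟨c, hc⟩ := hmul x hx
      have hwU : w ∈ U₁ := by
        refine Submodule.span_le.mpr ?_ hw
        intro w hw
        rcases hw with rfl | hw
        · exact hv
        · rw [Set.mem_singleton_iff.mp hw]
          exact huU
      have hyw : (x0 - star x0) w ∈ Submodule.span ℝ {v, u} := by
        obtain ⟨p, q, rfl⟩ := Submodule.mem_span_pair.mp hw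
        rw [map_add, map_smul, map_smul, ← hu, hu, hμ v hv, ← hu]
        refine Submodule.add_mem _ (Submodule.smul_mem _ _ (Submodule.subset_span (by simp)))
          (Submodule.smul_mem _ _ (Submodule.smul_mem _ _ (Submodule.subset_span (by simp))))
      have e1 : x w = (1 / 2 : ℝ) • (a • w + c • (x0 - star x0) w) := by
        rw [hx1 x w, ha w hwU, hc w hwU]
      have e2 : (star x) w = (1 / 2 : ℝ) • (a • w - c • (x0 - star x0) w) := by
        rw [hx2 x w, ha w hwU, hc w hwU]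
      rw [e1, e2]
      refine ⟨Submodule.smul_mem _ _ (Submodule.add_mem _ (Submodule.smul_mem _ _ hw)
        (Submodule.smul_mem _ _ hyw)), Submodule.smul_mem _ _ (Submodule.sub_mem _
        (Submodule.smul_mem _ _ hw) (Submodule.smul_mem _ _ hyw))⟩
    · intro h
      have : v ∈ Submodule.span ℝ {v, u} := Submodule.subset_span (by simp)
      rw [h, Submodule.mem_bot] at this
      exact hv0 this
    · classical
      have h4 : (({v, u} : Finset (V k)) : Set (V k)) = {v, u} := by simp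
      rw [← h4]
      exact (finrank_span_finset_le_card _).trans Finset.card_le_two

/-- invariant planes -/
theorem goalCLA : G_CLA := by
  intro k S hS W hW hdim
  have hWne : W ≠ ⊥ := by
    intro h
    rw [h, finrank_bot] at hdim
    omega
  obtain ⟨P, hP1, hP2, hP3, hP4⟩ := small_inv S hS W hW hWne
  have hPpos : 0 < Module.finrank ℝ P := by
    rw [Module.finrank_pos_iff, Submodule.nontrivial_iff_ne_bot]
    exact hP3
  rcases (by omega : Module.finrank ℝ P = 1 ∨ Module.finrank ℝ P = 2) with h1 | h1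
  swap
  · exact ⟨P, hP1, h1, hP2⟩
  have hW2 : Inv S (Pᗮ ⊓ W) := by
    intro x hx v hv
    obtain ⟨hv1, hv2⟩ := Submodule.mem_inf.mp hv
    rw [Submodule.mem_inf, Submodule.mem_inf]
    rw [Submodule.mem_orthogonal] at hv1
    refine ⟨⟨?_, (hW x hx v hv2).1⟩, ⟨?_, (hW x hx v hv2).2⟩⟩
    · rw [Submodule.mem_orthogonal]
      intro u hu
      rw [inner_star]
      exact hv1 _ (hP2 x hx u hu).2
    · rw [Submodule.mem_orthogonal]
      intro u hu
      rw [inner_star, star_star]
      exact hv1 _ (hP2 x hx u hu).1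
  have hdim2 : Module.finrank ℝ P + Module.finrank ℝ (Pᗮ ⊓ W : Submodule ℝ (V k)) =
      Module.finrank ℝ W := Submodule.finrank_add_inf_finrank_orthogonal hP1
  have hne2 : Pᗮ ⊓ W ≠ ⊥ := by
    intro h
    rw [h, finrank_bot] at hdim2
    omega
  obtain ⟨Q, hQ1, hQ2, hQ3, hQ4⟩ := small_inv S hS _ hW2 hne2
  have hQpos : 0 < Module.finrank ℝ Q := by
    rw [Module.finrank_pos_iff, Submodule.nontrivial_iff_ne_bot]
    exact hQ3
  rcases (by omega : Module.finrank ℝ Q = 1 ∨ Module.finrank ℝ Q = 2) with h2 | h2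
  swap
  · exact ⟨Q, hQ1.trans inf_le_right, h2, hQ2⟩
  refine ⟨P ⊔ Q, sup_le hP1 (hQ1.trans inf_le_right), ?_, ?_⟩
  · have h3 := Submodule.finrank_sup_add_finrank_inf_eq P Q
    have h4 : P ⊓ Q = ⊥ := by
      rw [eq_bot_iff]
      calc P ⊓ Q ≤ P ⊓ Pᗮ := inf_le_inf le_rfl (hQ1.trans inf_le_left)
        _ = ⊥ := Submodule.inf_orthogonal_eq_bot P
    rw [h4, finrank_bot] at h3
    omega
  · intro x hx v hv
    obtain ⟨p, hp, q, hq, rfl⟩ := Submodule.mem_sup.mp hv
    rw [map_add, map_add]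
    exact ⟨Submodule.add_mem_sup (hP2 x hx p hp).1 (hQ2 x hx q hq).1,
      Submodule.add_mem_sup (hP2 x hx p hp).2 (hQ2 x hx q hq).2⟩

end Pool.Agent.Helper77.QS
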